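import Mathlib

/-! No Euclidean space contains a discrete weak Mycielski set. -/

namespace Pool.Agent.Results.MP_9ec85a_gt.No

open Set Filter Topology Metric

/-- `A` and `B` are congruent: an isometry of the whole space maps `A` onto `B`. -/
def Congr {E : Type} [MetricSpace E] (A B : Set E) : Prop := ∃ g : E ≃ᵢ E, g '' A = B

/-- Weak Mycielski set. -/
def WeakMycielski {E : Type} [MetricSpace E] (X : Set E) : Prop :=
  ∃ p ∈ X, ∃ q ∈ X, p ≠ q ∧ Congr (X \ {p}) X ∧ Congr (X \ {q}) X

/-- Every point of `X` is isolated in `X`. -/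
def Discrete {E : Type} [MetricSpace E] (X : Set E) : Prop :=
  ∀ x ∈ X, ∃ ε > 0, ∀ y ∈ X, dist y x < ε → y = x

section
variable {E : Type} [MetricSpace E] {X : Set E} {F : Bool → E ≃ᵢ E} {d : Bool → E}

/-- the isometry given by a positive word -/
def act (F : Bool → E ≃ᵢ E) (u : List Bool) : E ≃ᵢ E := (u.map F).prod

lemma act_cons (s : Bool) (u : List Bool) (x : E) : act F (s :: u) x = F s (act F u x) := by
  simp [act]

lemma act_append (u v : List Bool) (x : E) : act F (u ++ v) x = act F u (act F v x) := by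
  simp [act]

lemma act_mem (hF : ∀ s, F s '' X = X \ {d s}) (u : List Bool) {x : E} (hx : x ∈ X) :
    act F u x ∈ X := by
  induction u with
  | nil => simpa [act] using hx
  | cons s u ih => rw [act_cons]; exact ((hF s).subset ⟨_, ih, rfl⟩).1

lemma missing (hF : ∀ s, F s '' X = X \ {d s}) (u : List Bool) :
    ∃ D : Finset E, D.card ≤ u.length ∧ (∀ y ∈ D, ∃ w s, y = act F w (d s)) ∧
      ∀ y ∈ X, y ∈ D ∨ ∃ x ∈ X, act F u x = y := by
  classical
  induction u with
  | nil => exact ⟨∅, le_rfl, by simp, fun y hy => Or.inr ⟨y, hy, by simp [act]⟩⟩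
  | cons s u ih =>
    obtain ⟨D, h1, h2, h3⟩ := ih
    refine ⟨insert (d s) (D.image (F s)), (Finset.card_insert_le _ _).trans
      (Nat.succ_le_succ (Finset.card_image_le.trans h1)), fun y hy => ?_, fun y hy => ?_⟩
    · rcases Finset.mem_insert.1 hy with rfl | hy
      · exact ⟨[], s, by simp [act]⟩
      · obtain ⟨z, hz, rfl⟩ := Finset.mem_image.1 hy
        obtain ⟨w, t, rfl⟩ := h2 z hz
        exact ⟨s :: w, t, (act_cons _ _ _).symm⟩
    · by_cases h : y = d s
      · exact Or.inl (h ▸ Finset.mem_insert_self _ _)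
      obtain ⟨z, hz, rfl⟩ := (hF s).symm.subset ⟨hy, h⟩
      rcases h3 z hz with h | ⟨x, hx, rfl⟩
      · exact Or.inl (Finset.mem_insert_of_mem (Finset.mem_image_of_mem _ h))
      · exact Or.inr ⟨x, hx, act_cons _ _ _⟩

lemma nofix [ProperSpace E] (hX : Discrete X) (hF : ∀ s, F s '' X = X \ {d s})
    (hd : ∀ s, d s ∈ X) (s : Bool) (u : List Bool) (c : E) : act F (s :: u) c ≠ c := by
  intro hc
  set w := act F (s :: u)
  have h1 : ∀ n : ℕ, (w ^ n) (d s) ∈ X := by
    intro n
    induction n with
    | zero => exact hd s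
    | succ n ih => rw [pow_succ', IsometryEquiv.mul_apply]; exact act_mem hF (s :: u) ih
  have h2 : ∀ n : ℕ, (w ^ n) c = c := by
    intro n
    induction n with
    | zero => rfl
    | succ n ih => rw [pow_succ', IsometryEquiv.mul_apply, ih, hc]
  obtain ⟨ε, hε, h⟩ := hX _ (hd s)
  obtain ⟨a, -, φ, hφ, ht⟩ := (isCompact_closedBall c (dist (d s) c)).tendsto_subseq
    (x := fun n => (w ^ n) (d s)) fun n => by
      rw [mem_closedBall, ← (w ^ n).dist_eq (d s) c, h2]
  obtain ⟨N, hN⟩ := cauchySeq_iff'.1 ht.cauchySeq ε hε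
  have h3 := hN (N + 1) (Nat.le_succ N)
  obtain ⟨k, hk⟩ := Nat.exists_eq_add_of_lt (hφ (Nat.lt_succ_self N))
  simp only [Function.comp] at h3
  rw [hk, add_assoc, pow_add, IsometryEquiv.mul_apply, IsometryEquiv.dist_eq] at h3
  have h4 := h _ (h1 _) h3
  rw [pow_succ', IsometryEquiv.mul_apply, act_cons] at h4
  exact ((hF s).subset ⟨_, act_mem hF u (h1 k), h4⟩).2 rfl

lemma free [ProperSpace E] (hX : Discrete X) (hF : ∀ s, F s '' X = X \ {d s})
    (hd : ∀ s, d s ∈ X) (hne : d true ≠ d false) (u v : List Bool) (hl : u.length = v.length)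
    (h : ∀ x ∈ X, act F u x = act F v x) : u = v := by
  have key : ∀ s u v, (∀ x ∈ X, act F (s :: u) x = act F ((!s) :: v) x) →
      ∃ w, d s = act F ((!s) :: w) (d (!s)) := by
    intro s u v h
    have hs : d s ≠ d (!s) := by cases s; exacts [hne.symm, hne]
    obtain ⟨y, hy, e⟩ := (hF (!s)).symm.subset ⟨hd s, hs⟩
    obtain ⟨D, -, h2, h3⟩ := missing hF v
    rcases h3 y hy with h4 | ⟨x, hx, rfl⟩
    · obtain ⟨w, t, rfl⟩ := h2 y h4
      rw [← act_cons] at e
      by_cases ht : t = s
      · exact absurd (ht ▸ e) (nofix hX hF hd _ _ _)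
      · exact ⟨w, by rw [← e, Bool.eq_not_iff.2 ht]⟩
    · rw [← act_cons, ← h x hx, act_cons] at e
      exact absurd rfl ((hF s).subset ⟨_, act_mem hF u hx, e⟩).2
  induction u generalizing v with
  | nil => exact (List.length_eq_zero_iff.1 hl.symm).symm
  | cons s u ih =>
    obtain _ | ⟨t, v⟩ := v
    · simp at hl
    by_cases hst : t = s
    · subst hst
      rw [ih v (by simpa using hl) fun x hx => (F t).injective (by simpa [act_cons] using h x hx)]
    · obtain rfl := Bool.eq_not_iff.2 hst
      obtain ⟨w, e⟩ := key s u v h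
      obtain ⟨w', e'⟩ := key (!s) v u fun x hx => by rw [Bool.not_not, h x hx]
      rw [Bool.not_not] at e'
      rw [e', ← act_append] at e
      exact absurd e.symm (nofix hX hF hd _ _ _)

end

theorem result (n : ℕ) (X : Set (EuclideanSpace ℝ (Fin n))) (hX : Discrete X) :
    ¬ WeakMycielski X := by
  classical
  rintro ⟨p, hp, q, hq, hne, ⟨f, hf⟩, g, hg⟩
  let F : Bool → EuclideanSpace ℝ (Fin n) ≃ᵢ EuclideanSpace ℝ (Fin n) := fun s =>
    if s then f.symm else g.symm
  let d : Bool → EuclideanSpace ℝ (Fin n) := fun s => if s then p else q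
  have hF : ∀ s, F s '' X = X \ {d s} := by
    rintro (_ | _)
    · simp only [F, d]; nth_rw 1 [← hg]; simp [image_image]
    · simp only [F, d]; nth_rw 1 [← hf]; simp [image_image]
  have hd : ∀ s, d s ∈ X := by rintro (_ | _); exacts [hq, hp]
  obtain ⟨t, htX, hsp, hi⟩ := exists_affineIndependent ℝ (EuclideanSpace ℝ (Fin n)) X
  have hfin : t.Finite := finite_set_of_fin_dim_affineIndependent ℝ hi
  have := hfin.fintype
  have det : ∀ u v : List Bool, u.length = v.length →
      (∀ x : t, act F u x = act F v x) → u = v := fun u v hl h =>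
    free hX hF hd hne u v hl fun x hx => AffineMap.eqOn_affineSpan (k := ℝ) (s := t)
      (f := (act F u).toRealAffineIsometryEquiv.toAffineEquiv.toAffineMap)
      (g := (act F v).toRealAffineIsometryEquiv.toAffineEquiv.toAffineMap)
      (fun y hy => h ⟨y, hy⟩) (hsp ▸ subset_affineSpan ℝ X hx)
  obtain ⟨ε, hε, hiso⟩ : ∃ ε > 0, ∀ x : t, ∀ y ∈ X, dist y x < ε → y = x := by
    have : ∀ᶠ ε in 𝓝[>] (0 : ℝ), ∀ x : t, ∀ y ∈ X, dist y x < ε → y = x := by
      refine eventually_all.2 fun x => ?_
      obtain ⟨e, he, h⟩ := hX x (htX x.2)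
      filter_upwards [Ioo_mem_nhdsGT he] with ε hε y hy hd using h y hy (hd.trans hε.2)
    obtain ⟨ε, h1, h2⟩ := (this.and self_mem_nhdsWithin).exists
    exact ⟨ε, h2, h1⟩
  obtain ⟨M, hM⟩ := (hfin.union (toFinite (range fun s => F s 0))).isBounded.exists_norm_le
  have hM0 : 0 ≤ M := (norm_nonneg _).trans (hM (F true 0) (Or.inr ⟨true, rfl⟩))
  have nb : ∀ (u : List Bool) (x : t), ‖act F u x‖ ≤ (u.length + 1) * M := by
    intro u x
    induction u with
    | nil => simpa [act] using hM x (Or.inl x.2)
    | cons s u ih =>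
      have h1 := dist_triangle (F s (act F u x)) (F s 0) 0
      rw [IsometryEquiv.dist_eq, dist_zero_right, dist_zero_right, dist_zero_right] at h1
      have h2 := hM (F s 0) (Or.inr ⟨s, rfl⟩)
      rw [act_cons, List.length_cons]
      push_cast
      linarith
  obtain ⟨δ, hδ⟩ : ∃ δ : ℝ, δ = ε / (n + 1) := ⟨_, rfl⟩
  have hδ0 : 0 < δ := by rw [hδ]; positivity
  obtain ⟨K, hK⟩ := exists_nat_ge (M / δ)
  have cnt : ∀ N : ℕ, 2 ^ N ≤ (N + 1) ^ Fintype.card t *
      (((N + 1) * (2 * K + 1)) ^ n) ^ Fintype.card t := by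
    intro N
    have := Finset.card_le_mul_card_image_of_maps_to (s := (Finset.univ : Finset (Fin N → Bool)))
      (f := fun u (x : t) (j : Fin n) => ⌊act F (List.ofFn u) x j / δ⌋)
      (t := Fintype.piFinset fun _ => Fintype.piFinset fun _ =>
        Finset.Icc (-(((N + 1) * K : ℕ) : ℤ)) ((N + 1) * K : ℕ)) (fun u _ => by
          simp only [Fintype.mem_piFinset, Finset.mem_Icc]
          intro x j
          have h1 := (PiLp.norm_apply_le (act F (List.ofFn u) x) j).trans (nb _ x)
          rw [List.length_ofFn, Real.norm_eq_abs] at h1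
          have h2 : |act F (List.ofFn u) x j / δ| ≤ ((N + 1) * K : ℕ) := by
            rw [abs_div, abs_of_pos hδ0]
            push_cast
            calc _ ≤ (N + 1) * M / δ := by gcongr
              _ = (N + 1) * (M / δ) := by ring
              _ ≤ _ := by gcongr
          rw [abs_le] at h2
          exact ⟨Int.le_floor.2 (by rw [Int.cast_neg, Int.cast_natCast]; exact h2.1),
            (Int.floor_le_floor h2.2).trans (by rw [Int.floor_natCast])⟩)
      ((N + 1) ^ Fintype.card t) (fun b _ => by
        rcases (Finset.univ.filter fun u : Fin N → Bool => (fun (x : t) (j : Fin n) =>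
          ⌊act F (List.ofFn u) x j / δ⌋) = b).eq_empty_or_nonempty with h | ⟨u, hu⟩
        · simp [h]
        obtain ⟨D, h1, -, h3⟩ := missing hF (List.ofFn u)
        rw [List.length_ofFn] at h1
        refine (Finset.card_le_card_of_injOn (t := Fintype.piFinset fun x : t =>
          insert (act F (List.ofFn u) x) D) (fun v x => act F (List.ofFn v) x) (fun v hv => ?_)
          fun v _ v' _ h => List.ofFn_injective (det _ _ (by simp) (congrFun h))).trans ?_
        · simp only [Finset.mem_coe, Fintype.mem_piFinset, Finset.mem_insert]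
          intro x
          rcases h3 _ (act_mem hF (List.ofFn v) (htX x.2)) with h | ⟨y, hy, e⟩
          · exact Or.inr h
          left
          rw [← e, hiso x y hy]
          rw [← (act F (List.ofFn u)).dist_eq, e, EuclideanSpace.dist_eq, Real.sqrt_lt' hε]
          have hc := (Finset.mem_filter.1 hv).2.trans (Finset.mem_filter.1 hu).2.symm
          calc _ ≤ ∑ _j : Fin n, δ ^ 2 := Finset.sum_le_sum fun j _ => by
                have := Int.abs_sub_lt_one_of_floor_eq_floor (congrFun (congrFun hc x) j)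
                rw [← sub_div, abs_div, abs_of_pos hδ0, div_lt_one hδ0] at this
                rw [Real.dist_eq]
                gcongr
            _ < ε ^ 2 := by
                have e2 : ε = (n + 1) * δ := by rw [hδ]; field_simp
                simp only [Finset.sum_const, Finset.card_univ, Fintype.card_fin, nsmul_eq_mul]
                rw [e2, mul_pow]
                gcongr
                nlinarith [(Nat.cast_nonneg n : (0 : ℝ) ≤ n)]
        · rw [Fintype.card_piFinset]
          exact (Finset.prod_le_pow_card _ _ _ fun x _ =>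
            (Finset.card_insert_le _ _).trans (Nat.succ_le_succ h1)))
    simp only [Finset.card_univ, Fintype.card_fun, Fintype.card_bool, Fintype.card_fin,
      Fintype.card_piFinset, Finset.prod_const, Int.card_Icc] at this
    refine this.trans ?_
    gcongr
    rw [Int.toNat_le]
    push_cast
    nlinarith [(Int.natCast_nonneg N)]
  set m := Fintype.card t
  have lim := ((tendsto_pow_const_div_const_pow_of_one_lt (m + n * m) one_lt_two).comp
    (tendsto_add_atTop_nat 1)).const_mul (2 * ((2 * K + 1 : ℝ) ^ n) ^ m)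
  rw [mul_zero] at lim
  obtain ⟨N, hN⟩ := (lim.eventually (gt_mem_nhds one_pos)).exists
  have h1 : (2 : ℝ) ^ N ≤ (N + 1) ^ m * (((N + 1) * (2 * K + 1)) ^ n) ^ m := by
    exact_mod_cast cnt N
  simp only [Function.comp] at hN
  rw [← mul_div_assoc, div_lt_one (by positivity), pow_succ, pow_add, pow_mul] at hN
  push_cast at hN
  rw [mul_pow, mul_pow] at h1
  nlinarith

end Pool.Agent.Results.MP_9ec85a_gt.No
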